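import Pool.Agent.J4.H15.HilbDef
import Pool.Agent.J4.H15.FamMain
import Pool.Agent.J4.H15.QProj

/-!
# MP_26f572_ag, Q1: the Hilbert scheme of four points is normal and Cohen–Macaulay

Let `X` be a smooth separated quasi-projective scheme over a field `k`, of any dimension, and let
`H`, with universal family `W`, be the Hilbert scheme of four points of `X`, characterised by its
universal property `IsHilb a h Q P 4`: flat families of four points of `X` over a `k`-scheme `T`
are the pullbacks of `W` along unique `k`-morphisms `T ⟶ H`. Then every local ring of `H` is an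
integrally closed domain and is Cohen–Macaulay.

The definitions used are `IsFam` (families of `n` points), `IsHilb` and `IsCMLocal`, all in
`Pool/Agent/J4/H15/HilbDef.lean`.
The stronger form `Pool.Agent.J4.H15.ncm_hilb4` only assumes, instead of quasi-projectivity, that
every finite set of points of `X` lies in an affine open subscheme.
-/

set_option autoImplicit false

universe u

open CategoryTheory AlgebraicGeometry

namespace Pool.Agent.Results.MP_26f572_ag.HilbFourNormalCM

open Pool.Agent.J4.H15

attribute [local instance] MvPolynomial.gradedAlgebra

/-- **The Hilbert scheme of four points of a smooth quasi-projective scheme over a field is normal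
and Cohen–Macaulay.** -/
theorem result (k : Type u) [Field k] (X : Scheme.{u}) (a : X ⟶ Spec (CommRingCat.of k))
    [Smooth a] [IsSeparated a]
    (hX : ∃ (N : ℕ) (i : X ⟶ Proj (MvPolynomial.homogeneousSubmodule (Fin (N + 1)) k)),
      IsImmersion i)
    (H W : Scheme.{u}) (h : H ⟶ Spec (CommRingCat.of k)) (Q : W ⟶ X) (P : W ⟶ H)
    (hH : IsHilb a h Q P 4) (x : H) :
    IsDomain (H.presheaf.stalk x) ∧ IsIntegrallyClosed (H.presheaf.stalk x) ∧
      IsCMLocal (H.presheaf.stalk x) := by
  obtain ⟨N, i, hi⟩ := hX
  exact ncm_hilb4 k (exists_affine_of_immersion _ i) hH x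

end Pool.Agent.Results.MP_26f572_ag.HilbFourNormalCM
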